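import Pool.Agent.Y725.CL.Stm

/-!
# Job CL-NUM2: the choice of the parameters
-/

set_option autoImplicit false

namespace Pool.Agent.Y385.CL

open Filter


theorem asy {b : ℝ} (h1 : 2 / 3 < b) : ∀ᶠ d : ℕ in atTop,
    6 * ((d : ℝ) ^ (1 - b) * Real.log ((d : ℝ) + 1)) + 6 ≤ (d : ℝ) ^ (2 * b - 1) / 2 := by
  have hη : 0 < (3 * b - 2) / 2 := by linarith
  have e1 : ∀ᶠ x : ℝ in atTop, Real.log x ≤ 1 / 48 * x ^ ((3 * b - 2) / 2) := by
    have := (isLittleO_log_rpow_atTop hη).bound (by norm_num : (0 : ℝ) < 1 / 48)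
    filter_upwards [this, eventually_gt_atTop 0] with x hx h0
    rw [Real.norm_eq_abs, Real.norm_eq_abs, abs_of_pos (Real.rpow_pos_of_pos h0 _)] at hx
    exact (le_abs_self _).trans hx
  have e2 : ∀ᶠ x : ℝ in atTop, 24 ≤ x ^ (2 * b - 1) :=
    (tendsto_rpow_atTop (by linarith)).eventually_ge_atTop 24
  have e3 : ∀ᶠ x : ℝ in atTop, 6 * (x ^ (1 - b) * Real.log (x + 1)) + 6 ≤ x ^ (2 * b - 1) / 2 := by
    filter_upwards [e1, e2, eventually_ge_atTop 4] with x h3 h4 h5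
    have hx0 : 0 < x := by linarith
    have h6 : Real.log (x + 1) ≤ 2 * Real.log x := by
      rw [← Real.log_rpow hx0 2]
      refine Real.log_le_log (by linarith) ?_
      rw [show (2 : ℝ) = ((2 : ℕ) : ℝ) by norm_num, Real.rpow_natCast]
      nlinarith
    have h7 : Real.log (x + 1) ≤ 1 / 24 * x ^ ((3 * b - 2) / 2) := by linarith
    have h8 : x ^ (1 - b) * Real.log (x + 1) ≤ 1 / 24 * x ^ (2 * b - 1) := by
      calc x ^ (1 - b) * Real.log (x + 1)
          ≤ x ^ (1 - b) * (1 / 24 * x ^ ((3 * b - 2) / 2)) :=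
            mul_le_mul_of_nonneg_left h7 (Real.rpow_nonneg hx0.le _)
        _ = 1 / 24 * x ^ (1 - b + (3 * b - 2) / 2) := by
            rw [Real.rpow_add hx0]
            ring
        _ ≤ 1 / 24 * x ^ (2 * b - 1) := by
            refine mul_le_mul_of_nonneg_left ?_ (by norm_num)
            exact Real.rpow_le_rpow_of_exponent_le (by linarith) (by linarith)
    linarith
  exact tendsto_natCast_atTop_atTop.eventually e3

theorem num2 : ∀ β : ℝ, 2 / 3 < β → ∀ᶠ d : ℕ in atTop,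
  ∃ (k p q : ℕ) (x t : ℝ), k + p = d ∧ 0 < k ∧ q < p ∧ 0 < x ∧ x ≤ 1 ∧ 0 ≤ t ∧
    (1 + x) ^ (d + 1) / x ^ q / 2 ^ k + 2 ^ k * Real.exp (-(2 * t ^ 2 / p)) < 1 ∧
    (k : ℝ) + 1 + ((p : ℝ) / 2 + t) ≤ (d : ℝ) / 2 + (d : ℝ) ^ β ∧
      2 * (d : ℝ) ^ (1 - β) ≤ q := by
  intro β hβ
  obtain ⟨b, hb1, hb2, hb3⟩ : ∃ b : ℝ, 2 / 3 < b ∧ b ≤ 3 / 4 ∧ b ≤ β :=
    ⟨min β (3 / 4), lt_min hβ (by norm_num), min_le_right _ _, min_le_left _ _⟩
  filter_upwards [asy hb1, eventually_ge_atTop 4] with d hd hd4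
  have hD : (4 : ℝ) ≤ d := by exact_mod_cast hd4
  have hD0 : (0 : ℝ) < d := by linarith
  have hD1 : (1 : ℝ) ≤ d := by linarith
  set a : ℝ := (d : ℝ) ^ (1 - b) with ha
  set L : ℝ := Real.log ((d : ℝ) + 1) with hL
  set w : ℝ := (d : ℝ) ^ (2 * b - 1) with hw
  have ha1 : 1 ≤ a := Real.one_le_rpow hD1 (by linarith)
  have hL1 : 1 ≤ L := by
    rw [hL, Real.le_log_iff_exp_le (by linarith)]
    have := Real.exp_one_lt_d9
    linarith
  have hw1 : w ≤ (d : ℝ) / 2 := by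
    have h1 : w ≤ (d : ℝ) ^ (1 / 2 : ℝ) := Real.rpow_le_rpow_of_exponent_le hD1 (by linarith)
    have h2 : (d : ℝ) ^ (1 / 2 : ℝ) = Real.sqrt d := (Real.sqrt_eq_rpow _).symm
    rw [h2] at h1
    have h3 : Real.sqrt d * Real.sqrt d = d := Real.mul_self_sqrt hD0.le
    have h4 : 2 ≤ Real.sqrt d := by
      rw [show (2 : ℝ) = Real.sqrt 4 by
        rw [show (4 : ℝ) = 2 ^ 2 by norm_num, Real.sqrt_sq (by norm_num)]]
      exact Real.sqrt_le_sqrt hD
    nlinarith
  have hwb : w ≤ (d : ℝ) ^ b := Real.rpow_le_rpow_of_exponent_le hD1 (by linarith)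
  have hbβ : (d : ℝ) ^ b ≤ (d : ℝ) ^ β := Real.rpow_le_rpow_of_exponent_le hD1 hb3
  set q : ℕ := ⌈2 * a⌉₊ with hq
  have hq1 : 2 * a ≤ q := Nat.le_ceil _
  have hq2 : (q : ℝ) ≤ 3 * a := by
    have := Nat.ceil_lt_add_one (a := 2 * a) (by linarith)
    linarith
  have hq0 : (0 : ℝ) ≤ q := Nat.cast_nonneg q
  set k : ℕ := ⌈2 * q * L⌉₊ + 4 with hk
  have hk1 : 2 * q * L + 4 ≤ (k : ℝ) := by
    rw [hk]
    push_cast
    have := Nat.le_ceil (2 * q * L)
    linarith
  have hk2 : (k : ℝ) ≤ 6 * (a * L) + 5 := by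
    rw [hk]
    push_cast
    have h1 := Nat.ceil_lt_add_one (a := 2 * q * L) (by positivity)
    have h2 : (q : ℝ) * L ≤ 3 * a * L := mul_le_mul_of_nonneg_right hq2 (by linarith)
    have h3 : 2 * (q : ℝ) * L = 2 * (q * L) := by ring
    have h4 : 3 * a * L = 3 * (a * L) := by ring
    linarith
  have haL : a ≤ a * L := le_mul_of_one_le_right (by linarith) hL1
  have hkd : (k : ℝ) ≤ d / 4 - 1 := by linarith
  have hkn : k ≤ d := by
    have : (k : ℝ) ≤ d := by linarith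
    exact_mod_cast this
  have hpk : ((d - k : ℕ) : ℝ) = d - k := by rw [Nat.cast_sub hkn]
  have hqd : (q : ℝ) ≤ d / 4 := by linarith
  have hk0 : 0 < k := by rw [hk]; omega
  have hk0' : (0 : ℝ) < k := by exact_mod_cast hk0
  have h2l : 1 / 2 ≤ Real.log 2 := by
    have := Real.log_two_gt_d9
    linarith
  have h2u : Real.log 2 ≤ 1 := by
    have := Real.log_two_lt_d9
    linarith
  have h2k : (2 : ℝ) ^ k = Real.exp (k * Real.log 2) := by
    rw [Real.exp_nat_mul, Real.exp_log (by norm_num)]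
  have hqL : ((d : ℝ) + 1) ^ q = Real.exp (q * L) := by
    rw [Real.exp_nat_mul, hL, Real.exp_log (by linarith)]
  have hd1 : (0 : ℝ) < d + 1 := by linarith
  have hp0 : (0 : ℝ) < ((d - k : ℕ) : ℝ) := by rw [hpk]; linarith
  refine ⟨k, d - k, q, 1 / ((d : ℝ) + 1), (d : ℝ) ^ b / 2, by omega, hk0, ?_, by positivity, ?_,
    by positivity, ?_, ?_, ?_⟩
  · have h : (q : ℝ) < ((d - k : ℕ) : ℝ) := by rw [hpk]; linarith
    exact_mod_cast h
  · rw [div_le_one hd1]
    linarith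
  · have hA : (1 + 1 / ((d : ℝ) + 1)) ^ (d + 1) / (1 / ((d : ℝ) + 1)) ^ q / 2 ^ k < 1 / 2 := by
      have h1 : (1 + 1 / ((d : ℝ) + 1)) ^ (d + 1) ≤ Real.exp 1 := by
        have h2 : 1 + 1 / ((d : ℝ) + 1) ≤ Real.exp (1 / ((d : ℝ) + 1)) := by
          rw [add_comm]
          exact Real.add_one_le_exp _
        calc (1 + 1 / ((d : ℝ) + 1)) ^ (d + 1) ≤ Real.exp (1 / ((d : ℝ) + 1)) ^ (d + 1) :=
              pow_le_pow_left₀ (by positivity) h2 _
          _ = Real.exp 1 := by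
              rw [← Real.exp_nat_mul]
              congr 1
              push_cast
              field_simp
      have h3 : (1 / ((d : ℝ) + 1)) ^ q = (Real.exp (q * L))⁻¹ := by
        rw [one_div, inv_pow, hqL]
      have h4 : Real.exp (q * L) * 16 ≤ (2 : ℝ) ^ k := by
        have h5 : (16 : ℝ) = Real.exp (4 * Real.log 2) := by
          rw [show (4 : ℝ) = ((4 : ℕ) : ℝ) by norm_num, Real.exp_nat_mul,
            Real.exp_log (by norm_num)]
          norm_num
        rw [h5, ← Real.exp_add, h2k]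
        refine Real.exp_le_exp.2 ?_
        have h6 : (2 * q * L + 4) * Real.log 2 ≤ k * Real.log 2 :=
          mul_le_mul_of_nonneg_right hk1 (by linarith)
        have h7 : 0 ≤ (q : ℝ) * L := by positivity
        have h8 : (q : ℝ) * L ≤ 2 * (q * L) * Real.log 2 := by
          have := mul_le_mul_of_nonneg_left h2l h7
          linarith
        have h9 : (2 * q * L + 4) * Real.log 2 = 2 * (q * L) * Real.log 2 + 4 * Real.log 2 := by
          ring
        linarith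
      rw [h3, div_inv_eq_mul]
      have h8 : (0 : ℝ) < 2 ^ k := by positivity
      rw [div_lt_iff₀ h8]
      have h9 := Real.exp_one_lt_d9
      have h10 : (1 + 1 / ((d : ℝ) + 1)) ^ (d + 1) * Real.exp (q * L) ≤
          Real.exp 1 * Real.exp (q * L) :=
        mul_le_mul_of_nonneg_right h1 (Real.exp_pos _).le
      have h11 := Real.exp_pos (q * L)
      have h12 : Real.exp 1 * Real.exp (q * L) < 8 * Real.exp (q * L) :=
        mul_lt_mul_of_pos_right (by linarith) h11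
      linarith
    have hB : (2 : ℝ) ^ k * Real.exp (-(2 * ((d : ℝ) ^ b / 2) ^ 2 / ((d - k : ℕ) : ℝ))) < 1 / 2 := by
      have h1 : w / 2 ≤ 2 * ((d : ℝ) ^ b / 2) ^ 2 / ((d - k : ℕ) : ℝ) := by
        rw [le_div_iff₀ hp0]
        have h2 : w * d = ((d : ℝ) ^ b) ^ 2 := by
          rw [hw, ← Real.rpow_natCast, ← Real.rpow_mul hD0.le]
          nth_rewrite 2 [← Real.rpow_one (d : ℝ)]
          rw [← Real.rpow_add hD0]
          congr 1
          push_cast
          ring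
        have h3 : ((d - k : ℕ) : ℝ) ≤ d := by rw [hpk]; linarith
        have h4 : 0 < w := Real.rpow_pos_of_pos hD0 _
        have h5 := mul_le_mul_of_nonneg_left h3 h4.le
        have h6 : w / 2 * ((d - k : ℕ) : ℝ) = w * ((d - k : ℕ) : ℝ) / 2 := by ring
        have h7 : 2 * ((d : ℝ) ^ b / 2) ^ 2 = ((d : ℝ) ^ b) ^ 2 / 2 := by ring
        rw [h6, h7]
        linarith
      rw [h2k, ← Real.exp_add]
      have h6 : (k : ℝ) * Real.log 2 ≤ k := mul_le_of_le_one_right hk0'.le h2u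
      calc Real.exp (k * Real.log 2 + -(2 * ((d : ℝ) ^ b / 2) ^ 2 / ((d - k : ℕ) : ℝ)))
          ≤ Real.exp (-1) := Real.exp_le_exp.2 (by linarith)
        _ < 1 / 2 := by
            rw [Real.exp_neg, ← one_div]
            have := Real.exp_one_gt_d9
            exact one_div_lt_one_div_of_lt (by norm_num) (by linarith)
    linarith
  · rw [hpk]
    linarith
  · have h1 : (d : ℝ) ^ (1 - β) ≤ a := Real.rpow_le_rpow_of_exponent_le hD1 (by linarith)
    linarith

theorem t_NUM2 : Pool.Agent.Y725.CL.P_NUM2 := num2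

end Pool.Agent.Y385.CL
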